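import Mathlib
import Pool.Agent.H24.Lab3

namespace Pool.Agent.Results.MP_3772ec_co.No

theorem result : ∃ P : (n : ℕ) → SimpleGraph (Fin n) → Prop,
    (∀ n k (G : SimpleGraph (Fin n)) (φ : Fin k → Fin n), Function.Injective φ → P n G →
      P k (G.comap φ)) ∧
    (∀ n, 2 ≤ n → Nat.card {G : SimpleGraph (Fin n) // P n G} ≤ n ^ (25 * n)) ∧
    ∀ (c : ℝ) (A : List Bool → List Bool → Bool), ∃ n, 2 ≤ n ∧ ∃ G, P n G ∧
      ¬ ∃ ℓ : Fin n → List Bool, (∀ v, ((ℓ v).length : ℝ) ≤ c * Real.sqrt n) ∧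
        ∀ v w, v ≠ w → (G.Adj v w ↔ A (ℓ v) (ℓ w) = true) :=
  Pool.Agent.H24.Lab.main

end Pool.Agent.Results.MP_3772ec_co.No
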